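import Pool.Agent.E870.P.Final

/-!
# The first half of Murre's conjecture (B) reduces to `CH^i(h^(2i+1)(X)) = 0` for `dim X = 2i + 1`

The equality `F^0 CH^i(X) = CH^i(X)` of Murre's conjecture (B), for all Chow–Künneth decompositions
`π` of `X`, says that the groups `CH^i(h^b(X))` vanish for all `b > 2i`. We show that for the
varieties in any class closed under products which contains the curves (for example all smooth
projective varieties, or the products of curves) it is enough to know this for `b = 2i + 1` and
`dim X = 2i + 1`: the middle cohomology of a variety of odd dimension `2i + 1` should not contribute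
to `CH^i(X)`.

Proof. Let `a` be a class in `CH^i(h^b(X))`, `b > 2i + 1`, and let `z` be a class of degree zero on
a curve `E`. Then `a × z` lies in `CH^(i+1)(h^(b+1)(X × E))`, so it vanishes by induction on the
excess `b - 2i`. This implies `a = 0` (the peeling lemma, `Pool.Agent.E870.P.peel`): let `f : V ⟶ S`
be a degenerating family of curves with the relative class `θ` of degree zero. Then `a × θ` vanishes
on the fibres of `f`, so it is supported over curves `T` in `S` by the principle of Bloch and
Srinivas. Intersecting with the class `τ` of the family one finds `deg(θ · τ) a = 0`. This reduces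
the statement to `b = 2i + 1`. Multiplication with the class `1` or with a point of a curve reduces
it further to `dim X = 2i + 1`.
-/

open Pool.Agent.H914 Pool.Agent.R903 Pool.Agent.E870.Q

universe u v w

namespace Pool.Agent.Results.MP_d6e134_ag.ExcessOneSuffices

/-- **The equalities `F^0 CH^i(X) = CH^i(X)` for all varieties of a class are equivalent to the
vanishing of `CH^i(h^(2i+1)(X))` for those with `dim X = 2i + 1`.** -/
theorem result {k : Type u} [Field k] {𝒱 : VarClass k} {C : ChowTheory.{u, v} 𝒱}
    (W : WeilTheory.{u, v, w} C) (hC : IsGeometric C.toChowData) {P : 𝒱.Obj → Prop}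
    (hP : IsClosedClass P) :
    (∀ X, P X → ∀ i : ℕ, W.MurreB0 X i) ↔ ∀ X, P X → NoExcessMid W X :=
  Pool.Agent.E870.P.q_noExcess hC hP

end Pool.Agent.Results.MP_d6e134_ag.ExcessOneSuffices
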